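import Pool.Agent.X290.Reg.Ex
import Pool.Agent.X290.Reg.Ord3
/-!
# Abelian varieties with constrained `p`-power torsion have no ordinary part at `p`

Let `K` be a number field and `K'/K` a finite Galois extension such that `K'` contains the `p`-th
roots of unity, has exactly one prime above `p`, and has no Galois extension of `p`-power degree,
other than itself, which is unramified at all finite primes (for instance `K = ℚ` and `K' = ℚ(ζ_p)`
with `p` regular). Let `A` be a Noetherian local ring of residue characteristic `p` (for instance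
`ℤ_p`), `L` a field which contains it, and `R : G_K → GL_m(A)` continuous, unramified outside `p`,
with residually unipotent restriction to `G_{K'}`. Let `W < V` be subspaces of `L^m` stable under the
inertia group `I` at `p` of `G_{K'}`, such that `I` acts on `V/W` by a power `e^a` of the cyclotomic
character times finitely many operators. Then `W` and `V` are stable under `G_{K'}`, and `G_{K'}`
acts on `V/W` by `e^a` times finitely many operators. If `R` is pure of weight `w` at one prime
outside `p`, then `w = -2 a`. So for odd weight there are no such `W < V`: if `R` is the Tate module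
of an abelian variety, it has potentially good reduction of `p`-rank `0` at `p`.
-/

set_option autoImplicit false

open NumberField Matrix IsLocalRing

namespace Pool.Agent.Results.MP_e97e2b_nt.NoOrdinaryPart

/-- The absolute Galois group of `K`. -/
abbrev G (K : Type) [Field K] : Type := Gal(AlgebraicClosure K/K)

/-- The ring of all algebraic integers. -/
abbrev Z (K : Type) [Field K] : Type := 𝓞 (AlgebraicClosure K)

/-- The field `M` (with all number fields `M'` isomorphic to it) has no Galois extension of degree a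
power of `p`, different from `1`, which is unramified at all maximal ideals. -/
def NoUnramified (p : ℕ) (M : Type) [Field M] : Prop :=
  ∀ (M' L : Type) [Field M'] [NumberField M'] [Field L] [NumberField L] [Algebra M' L]
    [IsGalois M' L], Nonempty (M' ≃+* M) →
    (∀ (Q : Ideal (𝓞 L)) [Q.IsMaximal], Algebra.IsUnramifiedAt (𝓞 M') Q) →
      ∀ k : ℕ, Module.finrank M' L = p ^ k → k = 0

/-- There is at most one maximal ideal above `p`. -/
def OnePrime (p : ℕ) (M : Type) [Field M] : Prop :=
  ∀ P Q : Ideal (𝓞 M), P.IsMaximal → Q.IsMaximal → (p : 𝓞 M) ∈ P → (p : 𝓞 M) ∈ Q → P = Q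

/-- The conditions on the field `K'`. -/
def Base {K : Type} [Field K] (p : ℕ) (K' : IntermediateField K (AlgebraicClosure K)) : Prop :=
  FiniteDimensional K K' ∧ IsGalois K K' ∧ NoUnramified p K' ∧ OnePrime p K' ∧
    ∀ ζ : AlgebraicClosure K, ζ ^ p = 1 → ζ ∈ K'

/-- The conditions on the ring of coefficients. -/
def Coefficients (p : ℕ) (A : Type) [CommRing A] [IsLocalRing A] [TopologicalSpace A] : Prop :=
  IsNoetherianRing A ∧ IsAdic (maximalIdeal A) ∧ (p : A) ∈ maximalIdeal A

variable {K : Type} [Field K] {A : Type} [CommRing A] {m : ℕ}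

/-- The inertia group at the prime ideal `P` of the ring of all algebraic integers. -/
def Inertia (P : Ideal (Z K)) : Set (G K) := {τ | ∀ x : Z K, τ • x - x ∈ P}

/-- `R` is continuous and unramified at all primes that do not lie above `p`, and the reduction of
`R g` is unipotent for all `g` which act trivially on `K'`. -/
def Representation [IsLocalRing A] [TopologicalSpace A] (p : ℕ) (R : G K →* GL (Fin m) A)
    (K' : IntermediateField K (AlgebraicClosure K)) : Prop :=
  Continuous R ∧
  (∀ P : Ideal (Z K), P.IsMaximal → (p : Z K) ∉ P → ∀ τ ∈ Inertia P, R τ = 1) ∧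
  ∀ g ∈ K'.fixingSubgroup,
    IsNilpotent ((R g : Matrix (Fin m) (Fin m) A).map (residue A) - 1)

/-- `e` is the `p`-adic cyclotomic character: if `g` raises the roots of unity of order `p ^ N` to
the power `a`, then `e g` is congruent to `a` modulo `p ^ N`. -/
def Cyclotomic [TopologicalSpace A] (p : ℕ) (e : G K →* Aˣ) : Prop :=
  Continuous e ∧ ∀ (g : G K) (N a : ℕ), (∀ ζ : AlgebraicClosure K, ζ ^ p ^ N = 1 → g ζ = ζ ^ a) →
    ((e g : Aˣ) : A) - (a : A) ∈ Ideal.span {(p : A) ^ N}

variable (R : G K →* GL (Fin m) A) (e : G K →* Aˣ) {L : Type} [Field L] [Algebra A L]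

/-- The matrix of `g` over `L`. -/
noncomputable def mat (L : Type) [Field L] [Algebra A L] (g : G K) : Matrix (Fin m) (Fin m) L :=
  (R g : Matrix (Fin m) (Fin m) A).map (algebraMap A L)

/-- `D` acts on `V/W` by the `a`-th power of `e` times finitely many operators. -/
def ActsBy (D : Set (G K)) (W V : Submodule L (Fin m → L)) (a : ℤ) : Prop :=
  ∃ S : Set (Matrix (Fin m) (Fin m) L), S.Finite ∧ ∀ g ∈ D, ∃ s ∈ S, ∀ v ∈ V,
    mat R L g *ᵥ v - (algebraMap A L (e g)) ^ a • (s *ᵥ v) ∈ W

/-- `W` is stable under `D`. -/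
def Stable (D : Set (G K)) (W : Submodule L (Fin m → L)) : Prop :=
  ∀ g ∈ D, ∀ v ∈ W, mat R L g *ᵥ v ∈ W

/-- `W < V` are stable under `D`, which acts on `V/W` by the `a`-th power of `e` times finitely many
operators. -/
def Piece (D : Set (G K)) (W V : Submodule L (Fin m → L)) (a : ℤ) : Prop :=
  W < V ∧ Stable R D W ∧ Stable R D V ∧ ActsBy R e D W V a

/-- `R` is pure of weight `w` at the prime `Q`: for some Frobenius element (`x` goes to a power
`x ^ q` modulo `Q`) the characteristic polynomial has coefficients in a field `E` with an embedding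
in `ℂ`, such that its roots in `ℂ` have absolute value `q ^ (-w/2)`. -/
def PureAt (L : Type) [Field L] [Algebra A L] (Q : Ideal (Z K)) (w : ℤ) : Prop :=
  ∃ (φ : G K) (q : ℕ), 1 < q ∧ (∀ x : Z K, φ • x - x ^ q ∈ Q) ∧
    ∃ (E : Type) (_ : Field E) (i : E →+* L) (τ : E →+* ℂ) (f : Polynomial E),
      f.map i = (mat R L φ).charpoly ∧
      ∀ z : ℂ, (f.map τ).IsRoot z → ‖z‖ = (q : ℝ) ^ (-(w : ℝ) / 2)

/-- The fields generated by roots of unity of order `3`, `4`, `5`, `12` (for every prime `p`) and
`7` (for `p = 7`). -/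
def Example (p : ℕ) (M : Type) [Field M] [NumberField M] : Prop :=
  IsCyclotomicExtension {3} ℚ M ∨ IsCyclotomicExtension {4} ℚ M ∨ IsCyclotomicExtension {5} ℚ M ∨
    IsCyclotomicExtension {12} ℚ M ∨ (p = 7 ∧ IsCyclotomicExtension {7} ℚ M)

omit [CommRing A] [Algebra A L] in
/-- The theorem. -/
theorem result :
    (∀ (p : ℕ) (K : Type) [Field K] [NumberField K]
      (K' : IntermediateField K (AlgebraicClosure K)), p.Prime → Base p K' →
      ∀ (m : ℕ) (A : Type) [CommRing A] [IsLocalRing A] [TopologicalSpace A], Coefficients p A →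
      ∀ (R : G K →* GL (Fin m) A) (e : G K →* Aˣ), Representation p R K' → Cyclotomic p e →
      ∀ P : Ideal (Z K), P.IsMaximal → (p : Z K) ∈ P →
      ∀ (L : Type) [Field L] [Algebra A L] (W V : Submodule L (Fin m → L)) (a : ℤ),
        Piece R e (Inertia P ∩ K'.fixingSubgroup) W V a →
          Piece R e K'.fixingSubgroup W V a ∧
          ∀ Q : Ideal (Z K), Q.IsMaximal → (p : Z K) ∉ Q → ∀ w : ℤ, PureAt R L Q w → w = -2 * a) ∧
    ∀ p : ℕ, p.Prime → ∀ (M : Type) [Field M] [NumberField M], Example p M → NoUnramified p M := by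
  refine ⟨?_, ?_⟩
  · rintro p K _ _ K' hp ⟨_, _, hNU, hone, hμ⟩ m A _ _ _ ⟨_, hA, hpA⟩ R e ⟨hR, hur, hres⟩
      ⟨he, hcyc⟩ P hP hpP L _ _ W V a ⟨hlt, hstW, hstV, S, hS, hS2⟩
    have hpf : Fact p.Prime := ⟨hp⟩
    have eq : IntermediateField.fixedField K'.fixingSubgroup = K' :=
      InfiniteGalois.fixedField_fixingSubgroup K'
    have hUn : K'.fixingSubgroup.Normal :=
      (InfiniteGalois.normal_iff_isGalois K').2 inferInstance
    have hUo : IsOpen (K'.fixingSubgroup : Set Gal(AlgebraicClosure K/K)) :=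
      (InfiniteGalois.isOpen_iff_finite K').2 inferInstance
    have hfin : Finite (G K ⧸ K'.fixingSubgroup) := Subgroup.quotient_finite_of_isOpen _ hUo
    have h1 := Pool.Agent.X290.Reg.joint_mainU K'.fixingSubgroup hUo
      (by
        show Pool.Agent.X290.Reg.NoUnrF p (IntermediateField.fixedField K'.fixingSubgroup)
        rw [eq]; exact hNU)
      (by
        show Pool.Agent.X290.Reg.OnePrime p (IntermediateField.fixedField K'.fixingSubgroup)
        rw [eq]; exact hone) hA hpA R hR hur hres e he
      (fun Q hQ hpQ τ hτ => Pool.Agent.X290.Reg.cyc_inertia hp.ne_zero hpA hcyc Q hQ hpQ hτ)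
      (fun u hu => by
        have h2 := hcyc u 1 1 (fun ζ hζ => by
          rw [pow_one] at hζ ⊢
          exact hu ⟨ζ, hμ ζ hζ⟩)
        rw [pow_one, Nat.cast_one] at h2
        exact (Ideal.span_singleton_le_iff_mem _).2 hpA h2) hP hpP
    have hst' : ∀ X : Submodule L (Fin m → L), Stable R (Inertia P ∩ K'.fixingSubgroup) X →
        ∀ g ∈ K'.fixingSubgroup, ∀ v ∈ X, mat R L g *ᵥ v ∈ X := by
      intro X hX g hg v hv
      obtain ⟨d, hd, hdU, e1, _⟩ := h1.1 g hg
      have h2 := hX d ⟨hd, hdU⟩ v hv
      unfold mat at h2 ⊢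
      rwa [e1] at h2
    set RL : G K →* Matrix (Fin m) (Fin m) L :=
      ((((algebraMap A L).mapMatrix (m := Fin m)).toMonoidHom).comp
          ((Units.coeHom (Matrix (Fin m) (Fin m) A)).comp R)) with hRL
    set c : G K →* L := ((algebraMap A L : A →* L).comp ((Units.coeHom A).comp e)) with hc
    have hU : ∀ u ∈ K'.fixingSubgroup, ∃ s ∈ S, ∀ v ∈ V, RL u *ᵥ v - (c u) ^ a • (s *ᵥ v) ∈ W := by
      intro u hu
      obtain ⟨h, hh, hhU, e1, e2⟩ := h1.1 u hu
      obtain ⟨s, hs, h3⟩ := hS2 h ⟨hh, hhU⟩
      refine ⟨s, hs, fun v hv => ?_⟩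
      have h4 := h3 v hv
      unfold mat at h4
      rw [e1, e2] at h4
      exact h4
    refine ⟨⟨hlt, fun g hg => hst' W hstW g hg, fun g hg => hst' V hstV g hg, S, hS,
      fun g hg => hU g hg⟩, ?_⟩
    rintro Q hQ hpQ w ⟨φ, q, hq, hφ, E, _, i, τ, f, hf, hpure⟩
    have hcφ : c φ = q := by
      have h2 := Pool.Agent.X290.Reg.cyc_frob hp.ne_zero hpA hcyc Q hQ hpQ hφ
      show algebraMap A L ((e φ : Aˣ) : A) = q
      rw [h2, map_natCast]
    have h3 := Pool.Agent.X290.Reg.slope RL c K'.fixingSubgroup W V hlt a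
      (fun u hu v hv => hst' V hstV u hu v hv) S hS hU φ q hq hcφ i τ f hf w hpure
    omega
  · rintro p hp M _ _ (h | h | h | h | ⟨rfl, h⟩)
    · exact Pool.Agent.X290.Reg.noUnrF3 hp M
    · exact Pool.Agent.X290.Reg.noUnrF4 hp M
    · exact Pool.Agent.X290.Reg.noUnrF5 hp M
    · exact Pool.Agent.X290.Reg.noUnrF12 hp M
    · exact Pool.Agent.X290.Reg.noUnrF7 M

end Pool.Agent.Results.MP_e97e2b_nt.NoOrdinaryPart
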